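import Pool.Agent.Helper28.T3E.StF

/-!
# Project T3E, module COREOFE: the dimension chain, even characters

The proof is the one of `Pool.Agent.Helper88.T3.M_CoreT3of`.
-/

set_option autoImplicit false

namespace Pool.Agent.Helper84.T3E

open Pool.Agent.Helper14.CV (EqC)
open Pool.Agent.Helper14.T3 Pool.Agent.Helper14.W3 Pool.Agent.Helper28.T3E

/-- The image of the twisted values on the symbols of level `3^n`. -/
private noncomputable def V (D n : ℕ) : Submodule ℂ (ℕ → ℕ → ℂ) := (XS3 n).map (evT D)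

/-- The image of the twisted values on the new symbols of level `3^n`. -/
private noncomputable def W (D n : ℕ) : Submodule ℂ (ℕ → ℕ → ℂ) :=
  (NSS3 n (wE n) 1).map (evT D)

private theorem V_le (h : StDE) {D : ℕ} (hD : OkE D) {n : ℕ} (hn : 3 ≤ n) :
    V D n ≤ V D (n - 1) ⊔ W D n := by
  rintro x ⟨G, hG, rfl⟩
  obtain ⟨G0, G1, h0, h1, h2⟩ := h D n G hD hn hG
  exact Submodule.mem_sup.mpr ⟨evT D G0, ⟨G0, h0, rfl⟩, evT D G1, ⟨G1, h1, rfl⟩, h2.symm⟩

private theorem W_bound (h : StUBE) {D : ℕ} (hD : OkE D) {n : ℕ} (hn : 3 ≤ n) :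
    Module.Finite ℂ (W D n) ∧ Module.finrank ℂ (W D n) ≤ de3 n ∧
      ∀ G : ℤ → ℤ → ℂ, NewSym3S n (wE n) 1 G → evT D G = 0 → ¬ EqC G 0 →
        Module.finrank ℂ (W D n) + 1 ≤ de3 n := by
  have hD0 : D ≠ 0 := by
    have := hD.1
    omega
  obtain ⟨Θ, hΘ⟩ := h n hn
  set f : NSS3 n (wE n) 1 →ₗ[ℂ] (ℕ → ℕ → ℂ) := evT D ∘ₗ (NSS3 n (wE n) 1).subtype with hf
  have hker : LinearMap.ker Θ ≤ LinearMap.ker f := by
    intro G hG
    have h1 : EqC (G : ℤ → ℤ → ℂ) 0 := hΘ G (LinearMap.mem_ker.mp hG)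
    refine LinearMap.mem_ker.mpr ?_
    show evT D (G : ℤ → ℤ → ℂ) = 0
    rw [evT_congr hD0 h1]
    exact map_zero (evT D)
  set g : LinearMap.range Θ →ₗ[ℂ] (ℕ → ℕ → ℂ) :=
    (Submodule.liftQ (LinearMap.ker Θ) f hker) ∘ₗ (Θ.quotKerEquivRange.symm).toLinearMap with hg
  have hgΘ : ∀ G : NSS3 n (wE n) 1, g ⟨Θ G, LinearMap.mem_range_self Θ G⟩ = f G := by
    intro G
    have h1 : Θ.quotKerEquivRange.symm ⟨Θ G, LinearMap.mem_range_self Θ G⟩ =
        (LinearMap.ker Θ).mkQ G := by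
      rw [LinearEquiv.symm_apply_eq]
      rfl
    show (Submodule.liftQ (LinearMap.ker Θ) f hker)
      (Θ.quotKerEquivRange.symm ⟨Θ G, LinearMap.mem_range_self Θ G⟩) = f G
    rw [h1]
    rfl
  have hrange : W D n = LinearMap.range g := by
    ext x
    constructor
    · rintro ⟨G, hG, rfl⟩
      exact ⟨⟨Θ ⟨G, hG⟩, LinearMap.mem_range_self Θ _⟩, hgΘ ⟨G, hG⟩⟩
    · rintro ⟨⟨y, G, rfl⟩, rfl⟩
      exact ⟨(G : ℤ → ℤ → ℂ), G.2, (hgΘ G).symm⟩
  have hfin : Module.Finite ℂ (W D n) := by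
    rw [hrange]
    infer_instance
  have hrk := LinearMap.finrank_range_add_finrank_ker g
  have hle : Module.finrank ℂ (LinearMap.range Θ) ≤ de3 n := by
    have := Submodule.finrank_le (LinearMap.range Θ)
    simpa using this
  refine ⟨hfin, ?_, ?_⟩
  · rw [hrange]
    omega
  · intro G hG he hne
    have h1 : Θ ⟨G, hG⟩ ≠ 0 := fun h0 => hne (hΘ ⟨G, hG⟩ h0)
    have h2 : (⟨Θ ⟨G, hG⟩, LinearMap.mem_range_self Θ _⟩ : LinearMap.range Θ) ∈
        LinearMap.ker g := by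
      rw [LinearMap.mem_ker, hgΘ ⟨G, hG⟩]
      exact he
    have h5 : Nontrivial (LinearMap.ker g) := by
      refine ⟨⟨⟨_, h2⟩, 0, fun h0 => h1 ?_⟩⟩
      have h4 := congrArg Subtype.val h0
      exact congrArg Subtype.val h4
    have h3 : 0 < Module.finrank ℂ (LinearMap.ker g) :=
      Module.finrank_pos (R := ℂ) (M := LinearMap.ker g)
    rw [hrange]
    omega

private theorem DE3_succ (m : ℕ) : DE3 (m + 1) = DE3 m + de3 (m + 1) := by
  unfold DE3
  rw [Finset.sum_range_succ]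

private theorem V_bound (hDe : StDE) (hB : StBA) (hU : StUBE) {D : ℕ} (hD : OkE D) (n : ℕ)
    (hn : 2 ≤ n) : Module.Finite ℂ (V D n) ∧ Module.finrank ℂ (V D n) ≤ DE3 n := by
  induction n, hn using Nat.le_induction with
  | base =>
    have hbot : V D 2 = ⊥ := by
      rw [eq_bot_iff]
      rintro x ⟨G, hG, rfl⟩
      exact (Submodule.mem_bot ℂ).2 (hB D G hD hG)
    rw [hbot]
    exact ⟨inferInstance, by simp⟩
  | succ m hm ih =>
    obtain ⟨ih1, ih2⟩ := ih
    have hm3 : 3 ≤ m + 1 := by omega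
    obtain ⟨w1, w2, _⟩ := W_bound hU hD hm3
    have hle := V_le hDe hD hm3
    rw [Nat.add_sub_cancel] at hle
    have hfin : Module.Finite ℂ (V D m ⊔ W D (m + 1) : Submodule ℂ (ℕ → ℕ → ℂ)) :=
      Submodule.finiteDimensional_sup _ _
    refine ⟨Submodule.finiteDimensional_of_le hle, ?_⟩
    have h1 := Submodule.finrank_mono hle
    have h2 := Submodule.finrank_add_le_finrank_add_finrank (V D m) (W D (m + 1))
    have h3 := DE3_succ m
    omega

/-- COREOFE: the dimension chain. -/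
theorem hCOREOFE : StCOREOFE := by
  intro hDe hB hU hLB D n G hD hn hG he
  rcases (show n = 3 ∨ 4 ≤ n by omega) with rfl | hn4
  · obtain ⟨Θ, hΘ⟩ := hU 3 le_rfl
    refine hΘ ⟨G, hG⟩ ?_
    funext i
    have h0 : de3 3 = 0 := by
      unfold de3
      simp
    have := i.2
    omega
  by_contra hne
  obtain ⟨w1, w2, w3⟩ := W_bound hU hD hn
  have hw := w3 G hG he hne
  obtain ⟨v1, v2⟩ := V_bound hDe hB hU hD (n - 1) (by omega)
  have hle := V_le hDe hD (n := n) hn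
  have hfin : Module.Finite ℂ (V D (n - 1) ⊔ W D n : Submodule ℂ (ℕ → ℕ → ℂ)) :=
    Submodule.finiteDimensional_sup _ _
  have hfinV : Module.Finite ℂ (V D n) := Submodule.finiteDimensional_of_le hle
  have h1 := Submodule.finrank_mono hle
  have h2 := Submodule.finrank_add_le_finrank_add_finrank (V D (n - 1)) (W D n)
  have h3 : DE3 n = DE3 (n - 1) + de3 n := by
    obtain ⟨m, rfl⟩ : ∃ m, n = m + 1 := ⟨n - 1, by omega⟩
    rw [Nat.add_sub_cancel]
    exact DE3_succ m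
  obtain ⟨H, hH, hli⟩ := hLB D n hD hn4
  have hli' : LinearIndependent ℂ (fun k => (⟨evT D (H k), ⟨H k, hH k, rfl⟩⟩ : V D n)) := by
    refine LinearIndependent.of_comp (V D n).subtype ?_
    exact hli
  have h4 := hli'.fintype_card_le_finrank
  rw [Fintype.card_fin] at h4
  omega

end Pool.Agent.Helper84.T3E
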