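import Pool.Agent.Helper28.T3E.StE

/-!
# Project T3E, module HOM: `nu` is a homomorphism
-/

set_option autoImplicit false

namespace Pool.Agent.Helper84.T3E

open Pool.Agent.Helper28.T3E

/-- The changes of `nu` under the nine moves. -/
private theorem moves (hA : StRA) (hB : StRB) {x y : ℤ} (hc : IsCoprime x y) (h3 : 3 ∣ x) :
    nu (-x) (-y) = nu x y ∧ nu (x + 3 * y) y = nu x y ∧ nu (x - 3 * y) y = nu x y ∧
    nu x (y + 3 * x) = nu x y ∧ nu x (y - 3 * x) = nu x y ∧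
    nu (-2 * x + 3 * y) (-3 * x + 4 * y) = nu x y + 1 ∧
    nu (4 * x - 3 * y) (3 * x - 2 * y) = nu x y - 1 ∧
    nu (4 * x + 3 * y) (-3 * x - 2 * y) = nu x y - 1 ∧
    nu (-2 * x - 3 * y) (3 * x + 4 * y) = nu x y + 1 := by
  obtain ⟨u, v, huv⟩ := hc
  obtain ⟨k, rfl⟩ := h3
  have hc : IsCoprime (3 * k) y := ⟨u, v, huv⟩
  have h3 : (3 : ℤ) ∣ 3 * k := Dvd.intro _ rfl
  have hn : IsCoprime (-(3 * k)) y := ⟨-u, v, by linear_combination huv⟩
  have hn3 : (3 : ℤ) ∣ -(3 * k) := ⟨-k, by ring⟩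
  have a := hA _ _ hc h3
  refine ⟨?_, a.2.2.1, ?_, a.2.2.2, ?_, ?_, ?_, ?_, ?_⟩
  · rw [(hA _ _ hn hn3).2.1, a.1]
  · have c1 : IsCoprime (3 * k - 3 * y) y := ⟨u, v + 3 * u, by linear_combination huv⟩
    have c2 : (3 : ℤ) ∣ 3 * k - 3 * y := ⟨k - y, by ring⟩
    have h := (hA _ _ c1 c2).2.2.1
    rw [show 3 * k - 3 * y + 3 * y = 3 * k by ring] at h
    exact h.symm
  · have c1 : IsCoprime (3 * k) (y - 3 * (3 * k)) := ⟨u + 3 * v, v, by linear_combination huv⟩
    have h := (hA _ _ c1 h3).2.2.2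
    rw [show y - 3 * (3 * k) + 3 * (3 * k) = y by ring] at h
    exact h.symm
  · have h := hB _ _ hc h3
    rw [show 3 * k + 3 * (y - 3 * k) = -2 * (3 * k) + 3 * y by ring,
      show y + 3 * (y - 3 * k) = -3 * (3 * k) + 4 * y by ring] at h
    exact h
  · have c1 : IsCoprime (4 * (3 * k) - 3 * y) (3 * (3 * k) - 2 * y) :=
      ⟨-2 * u - 3 * v, 3 * u + 4 * v, by linear_combination huv⟩
    have c2 : (3 : ℤ) ∣ 4 * (3 * k) - 3 * y := ⟨4 * k - y, by ring⟩
    have h := hB _ _ c1 c2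
    rw [show 4 * (3 * k) - 3 * y + 3 * (3 * (3 * k) - 2 * y - (4 * (3 * k) - 3 * y)) = 3 * k by ring,
      show 3 * (3 * k) - 2 * y + 3 * (3 * (3 * k) - 2 * y - (4 * (3 * k) - 3 * y)) = y by ring] at h
    linarith
  · have c1 : IsCoprime (-(4 * (3 * k) + 3 * y)) (-3 * (3 * k) - 2 * y) :=
      ⟨2 * u - 3 * v, -3 * u + 4 * v, by linear_combination huv⟩
    have c2 : (3 : ℤ) ∣ -(4 * (3 * k) + 3 * y) := ⟨-(4 * k + y), by ring⟩
    have c3 : IsCoprime (4 * (3 * k) + 3 * y) (-3 * (3 * k) - 2 * y) :=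
      ⟨-(2 * u - 3 * v), -3 * u + 4 * v, by linear_combination huv⟩
    have c4 : (3 : ℤ) ∣ 4 * (3 * k) + 3 * y := ⟨4 * k + y, by ring⟩
    have h := hB _ _ c1 c2
    rw [show -(4 * (3 * k) + 3 * y) + 3 * (-3 * (3 * k) - 2 * y - -(4 * (3 * k) + 3 * y)) =
        -(3 * k) by ring,
      show -3 * (3 * k) - 2 * y + 3 * (-3 * (3 * k) - 2 * y - -(4 * (3 * k) + 3 * y)) = y by ring,
      a.1, (hA _ _ c3 c4).1] at h
    linarith
  · have h := hB _ _ hn hn3
    have c3 : IsCoprime (-2 * (3 * k) - 3 * y) (3 * (3 * k) + 4 * y) :=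
      ⟨4 * u - 3 * v, 3 * u - 2 * v, by linear_combination huv⟩
    have c4 : (3 : ℤ) ∣ -2 * (3 * k) - 3 * y := ⟨-2 * k - y, by ring⟩
    have e := (hA _ _ c3 c4).1
    rw [show -(3 * k) + 3 * (y - -(3 * k)) = -(-2 * (3 * k) - 3 * y) by ring,
      show y + 3 * (y - -(3 * k)) = 3 * (3 * k) + 4 * y by ring, e, a.1] at h
    exact h

private theorem nu_one : nu (3 * 0) 1 = 0 := by decide

theorem hHOM : StRA → StRB → StIND → StHOM := by
  intro hA hB hI
  have key := (hI (fun a b c d => ∀ a' b' c' d' : ℤ, a' * d' - 9 * b' * c' = 1 →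
    nu (3 * (a * b' + b * d')) (d * d' + 9 * c * b') = nu (3 * b) d + nu (3 * b') d') ?_).1 ?_
  · intro a b c d a' b' c' d' h h'
    exact key a b c d h a' b' c' d' h'
  · intro a' b' c' d' _
    rw [nu_one, zero_add, show 3 * (1 * b' + 0 * d') = 3 * b' by ring,
      show 1 * d' + 9 * 0 * b' = d' by ring]
  · intro a b c d h hP
    have hcop : IsCoprime (3 * b) d := ⟨-(3 * c), a, by linear_combination h⟩
    have h3 : (3 : ℤ) ∣ 3 * b := Dvd.intro _ rfl
    obtain ⟨m1, m2, m3, m4, m5, m6, m7, m8, m9⟩ := moves hA hB hcop h3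
    have N : ∀ a' b' c' d' : ℤ, a' * d' - 9 * b' * c' = 1 →
        IsCoprime (3 * (a * b' + b * d')) (d * d' + 9 * c * b') := by
      intro a' b' c' d' h'
      refine ⟨-(3 * (c * a' + d * c')), a * a' + 9 * b * c', ?_⟩
      linear_combination (a' * d' - 9 * b' * c') * h + h'
    have N3 : ∀ b' d' : ℤ, (3 : ℤ) ∣ 3 * (a * b' + b * d') := fun b' d' => Dvd.intro _ rfl
    refine ⟨?_, ?_, ?_, ?_, ?_, ?_, ?_, ?_, ?_⟩ <;> intro a' b' c' d' h' <;>
      obtain ⟨n1, n2, n3, n4, n5, n6, n7, n8, n9⟩ := moves hA hB (N a' b' c' d' h') (N3 b' d') <;>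
      have hp := hP a' b' c' d' h'
    · rw [show 3 * (-a * b' + -b * d') = -(3 * (a * b' + b * d')) by ring,
        show -d * d' + 9 * -c * b' = -(d * d' + 9 * c * b') by ring,
        show 3 * -b = -(3 * b) by ring, n1, m1, hp]
    · rw [show 3 * ((a + 9 * c) * b' + (b + d) * d') =
          3 * (a * b' + b * d') + 3 * (d * d' + 9 * c * b') by ring,
        show 3 * (b + d) = 3 * b + 3 * d by ring, n2, m2, hp]
    · rw [show 3 * ((a - 9 * c) * b' + (b - d) * d') =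
          3 * (a * b' + b * d') - 3 * (d * d' + 9 * c * b') by ring,
        show 3 * (b - d) = 3 * b - 3 * d by ring, n3, m3, hp]
    · rw [show (d + 9 * b) * d' + 9 * (c + a) * b' =
          d * d' + 9 * c * b' + 3 * (3 * (a * b' + b * d')) by ring,
        show d + 9 * b = d + 3 * (3 * b) by ring, n4, m4, hp]
    · rw [show (d - 9 * b) * d' + 9 * (c - a) * b' =
          d * d' + 9 * c * b' - 3 * (3 * (a * b' + b * d')) by ring,
        show d - 9 * b = d - 3 * (3 * b) by ring, n5, m5, hp]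
    · rw [show 3 * ((-2 * a + 9 * c) * b' + (-2 * b + d) * d') =
          -2 * (3 * (a * b' + b * d')) + 3 * (d * d' + 9 * c * b') by ring,
        show (-9 * b + 4 * d) * d' + 9 * (-a + 4 * c) * b' =
          -3 * (3 * (a * b' + b * d')) + 4 * (d * d' + 9 * c * b') by ring,
        show 3 * (-2 * b + d) = -2 * (3 * b) + 3 * d by ring,
        show -9 * b + 4 * d = -3 * (3 * b) + 4 * d by ring, n6, m6, hp]
      ring
    · rw [show 3 * ((4 * a - 9 * c) * b' + (4 * b - d) * d') =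
          4 * (3 * (a * b' + b * d')) - 3 * (d * d' + 9 * c * b') by ring,
        show (9 * b - 2 * d) * d' + 9 * (a - 2 * c) * b' =
          3 * (3 * (a * b' + b * d')) - 2 * (d * d' + 9 * c * b') by ring,
        show 3 * (4 * b - d) = 4 * (3 * b) - 3 * d by ring,
        show 9 * b - 2 * d = 3 * (3 * b) - 2 * d by ring, n7, m7, hp]
      ring
    · rw [show 3 * ((4 * a + 9 * c) * b' + (4 * b + d) * d') =
          4 * (3 * (a * b' + b * d')) + 3 * (d * d' + 9 * c * b') by ring,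
        show (-9 * b - 2 * d) * d' + 9 * (-a - 2 * c) * b' =
          -3 * (3 * (a * b' + b * d')) - 2 * (d * d' + 9 * c * b') by ring,
        show 3 * (4 * b + d) = 4 * (3 * b) + 3 * d by ring,
        show -9 * b - 2 * d = -3 * (3 * b) - 2 * d by ring, n8, m8, hp]
      ring
    · rw [show 3 * ((-2 * a - 9 * c) * b' + (-2 * b - d) * d') =
          -2 * (3 * (a * b' + b * d')) - 3 * (d * d' + 9 * c * b') by ring,
        show (9 * b + 4 * d) * d' + 9 * (a + 4 * c) * b' =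
          3 * (3 * (a * b' + b * d')) + 4 * (d * d' + 9 * c * b') by ring,
        show 3 * (-2 * b - d) = -2 * (3 * b) - 3 * d by ring,
        show 9 * b + 4 * d = 3 * (3 * b) + 4 * d by ring, n9, m9, hp]
      ring

end Pool.Agent.Helper84.T3E
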